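import Mathlib
import Pool.Agent.Lib.MP_30fd2d_al.Final

set_option autoImplicit false

/-!
# The p-length of p-soluble groups with Sylow p-subgroups in a proper variety

For every proper variety of groups and every prime `p`, the `p`-length of the finite `p`-soluble
groups whose Sylow `p`-subgroups belong to the variety is bounded.
-/

namespace Pool.Agent.Results.MP_30fd2d_al.ProperVariety

open Pool.Agent.PLen

/-- The group `H` satisfies all the laws in the set `L`, that is, `H` belongs to the variety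
defined by `L`. A law is a word in the letters `0, 1, 2, …`, and `H` satisfies the law `w` if
every substitution of elements of `H` for the letters sends `w` to `1`. -/
def InVariety (L : Set (FreeGroup ℕ)) (H : Type) [Group H] : Prop :=
  ∀ w ∈ L, ∀ f : FreeGroup ℕ →* H, f w = 1

/-- The variety defined by `L` is proper: some group does not belong to it. -/
def IsProper (L : Set (FreeGroup ℕ)) : Prop :=
  ∃ (H : Type) (_ : Group H), ¬ InVariety L H

variable {G : Type} [Group G]

/-- The factor `B / A` (for `A ≤ B`) is a `p`-group: its order is a power of `p`. -/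
def PFactor (p : ℕ) (A B : Subgroup G) : Prop := ∃ k : ℕ, A.relIndex B = p ^ k

/-- The factor `B / A` (for `A ≤ B`) is a `p'`-group: its order is prime to `p`. -/
def PPrimeFactor (p : ℕ) (A B : Subgroup G) : Prop := (A.relIndex B).Coprime p

/-- `A` is a normal subgroup of `B` with simple quotient group `B / A`. -/
def SimpleStep (A B : Subgroup G) : Prop :=
  A ≤ B ∧ ∃ _ : (A.subgroupOf B).Normal, IsSimpleGroup (B ⧸ A.subgroupOf B)

/-- `1 = N 0 ≤ N 1 ≤ ⋯ ≤ N m = G` is a composition series of `G`. -/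
def IsCompositionSeries (m : ℕ) (N : ℕ → Subgroup G) : Prop :=
  N 0 = ⊥ ∧ N m = ⊤ ∧ ∀ i < m, SimpleStep (N i) (N (i + 1))

/-- `G` is `p`-soluble: every composition factor of `G` is a `p`-group or a `p'`-group. -/
def IsPSoluble (p : ℕ) (G : Type) [Group G] : Prop :=
  ∀ (m : ℕ) (N : ℕ → Subgroup G), IsCompositionSeries m N →
    ∀ i < m, PFactor p (N i) (N (i + 1)) ∨ PPrimeFactor p (N i) (N (i + 1))

/-- `1 = N 0 ≤ N 1 ≤ ⋯ ≤ N m = G` is a normal series of `G` in which every factor is a `p`-group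
or a `p'`-group. -/
def IsPSeries (p m : ℕ) (N : ℕ → Subgroup G) : Prop :=
  N 0 = ⊥ ∧ N m = ⊤ ∧ (∀ i ≤ m, (N i).Normal) ∧
    ∀ i < m, N i ≤ N (i + 1) ∧ (PFactor p (N i) (N (i + 1)) ∨ PPrimeFactor p (N i) (N (i + 1)))

open Classical in
/-- The number of the factors of the series `N 0 ≤ ⋯ ≤ N m` that are `p`-groups. -/
noncomputable def pCount (p m : ℕ) (N : ℕ → Subgroup G) : ℕ :=
  ((Finset.range m).filter (fun i => PFactor p (N i) (N (i + 1)))).card

/-- The `p`-length of `G`: the least possible number of `p`-group factors in a normal series of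
`G` all of whose factors are `p`-groups or `p'`-groups (and infinity if there is none). -/
noncomputable def pLength (p : ℕ) (G : Type) [Group G] : ℕ∞ :=
  ⨅ (m : ℕ) (N : ℕ → Subgroup G) (_ : IsPSeries p m N), (pCount p m N : ℕ∞)

/-! ### Existence of composition series -/

theorem exists_compositionSeries [Finite G] (n : ℕ) :
    ∀ K : Subgroup G, Nat.card K = n → ∃ (m : ℕ) (N : ℕ → Subgroup G),
      N 0 = ⊥ ∧ N m = K ∧ ∀ i < m, SimpleStep (N i) (N (i + 1)) := by
  induction n using Nat.strong_induction_on with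
  | _ n ih =>
    intro K hK
    by_cases hbot : K = ⊥
    · exact ⟨0, fun _ => ⊥, rfl, hbot.symm, fun i hi => absurd hi (Nat.not_lt_zero i)⟩
    have hnt : Nontrivial K := (Subgroup.nontrivial_iff_ne_bot K).2 hbot
    obtain ⟨M, hM⟩ := (Set.toFinite {M : Subgroup K | M.Normal ∧ M ≠ ⊤}).exists_maximal
      ⟨⊥, inferInstance, bot_ne_top⟩
    obtain ⟨hMn, hMt⟩ := hM.prop
    have hsimple : IsSimpleGroup (K ⧸ M) := by
      have hntq : Nontrivial (K ⧸ M) := by
        rw [← not_subsingleton_iff_nontrivial]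
        intro h
        exact hMt (QuotientGroup.subgroup_eq_top_of_subsingleton M h)
      refine ⟨fun H hH => ?_⟩
      have h1 : M ≤ H.comap (QuotientGroup.mk' M) := by
        intro x hx
        rw [Subgroup.mem_comap]
        have : (QuotientGroup.mk' M) x = 1 := by simpa using hx
        rw [this]
        exact H.one_mem
      have h2 : (H.comap (QuotientGroup.mk' M)).Normal := hH.comap _
      have h3 : (H.comap (QuotientGroup.mk' M)).map (QuotientGroup.mk' M) = H :=
        Subgroup.map_comap_eq_self_of_surjective (QuotientGroup.mk'_surjective M) H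
      by_cases h4 : H.comap (QuotientGroup.mk' M) = ⊤
      · right
        rw [← h3, h4]
        exact Subgroup.map_top_of_surjective _ (QuotientGroup.mk'_surjective M)
      · left
        have h5 : H.comap (QuotientGroup.mk' M) ≤ M := hM.le_of_ge ⟨h2, h4⟩ h1
        rw [← h3, Subgroup.map_eq_bot_iff, QuotientGroup.ker_mk']
        exact h5
    have hsub : (M.map K.subtype).subgroupOf K = M :=
      Subgroup.comap_map_eq_self_of_injective K.subtype_injective M
    have hstep : SimpleStep (M.map K.subtype) K := by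
      refine ⟨Subgroup.map_subtype_le M, ?_⟩
      have key : ∀ M' : Subgroup K, M' = M → ∃ _ : M'.Normal, IsSimpleGroup (K ⧸ M') := by
        rintro _ rfl
        exact ⟨hMn, hsimple⟩
      exact key _ hsub
    have hlt : Nat.card (M.map K.subtype) < n := by
      have h1 : Nat.card (M.map K.subtype) = Nat.card M :=
        Nat.card_congr (M.equivMapOfInjective K.subtype K.subtype_injective).toEquiv.symm
      rw [h1, ← hK]
      refine lt_of_le_of_ne (Subgroup.card_le_card_group M) fun h => hMt ?_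
      exact Subgroup.eq_top_of_card_eq M h
    obtain ⟨m, N, h0, h1, h2⟩ := ih _ hlt (M.map K.subtype) rfl
    refine ⟨m + 1, fun i => if i ≤ m then N i else K, ?_, ?_, fun i hi => ?_⟩
    · change (if 0 ≤ m then N 0 else K) = ⊥
      rw [if_pos (Nat.zero_le m), h0]
    · change (if m + 1 ≤ m then N (m + 1) else K) = K
      rw [if_neg (by omega)]
    · change SimpleStep (if i ≤ m then N i else K) (if i + 1 ≤ m then N (i + 1) else K)
      rw [if_pos (by omega)]
      by_cases him : i + 1 ≤ m
      · rw [if_pos him]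
        exact h2 i (by omega)
      · rw [if_neg him]
        have : i = m := by omega
        rw [this, h1]
        exact hstep

/-! ### From subnormal series to normal series -/

/-- A subnormal subgroup with a property of its order that passes to divisors and to products is
contained in a normal subgroup with this property. -/
theorem exists_normal [Finite G] (Φ : ℕ → Prop) (hdvd : ∀ a b : ℕ, a ∣ b → Φ b → Φ a)
    (hmul : ∀ a b : ℕ, Φ a → Φ b → Φ (a * b)) (m : ℕ) (N : ℕ → Subgroup G) (hm : N m = ⊤)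
    (hstep : ∀ i < m, N i ≤ N (i + 1) ∧ ((N i).subgroupOf (N (i + 1))).Normal)
    (h0 : Φ (Nat.card (N 0))) : ∃ M : Subgroup G, M.Normal ∧ N 0 ≤ M ∧ Φ (Nat.card M) := by
  have hmain : ∀ j ≤ m, ∃ M : Subgroup G, N 0 ≤ M ∧ M ≤ N j ∧
      (∀ g ∈ N j, ∀ x ∈ M, g * x * g⁻¹ ∈ M) ∧ Φ (Nat.card M) := by
    intro j
    induction j with
    | zero =>
      intro _
      exact ⟨N 0, le_rfl, le_rfl, fun g hg x hx => (N 0).mul_mem ((N 0).mul_mem hg hx)
        ((N 0).inv_mem hg), h0⟩
    | succ j ih =>
      intro hj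
      obtain ⟨M, hM0, hMj, hMn, hMc⟩ := ih (by omega)
      obtain ⟨hle, hnor⟩ := hstep j (by omega)
      obtain ⟨H, hMH, hH⟩ := (Set.toFinite {H : Subgroup G | H ≤ N j ∧
        (∀ g ∈ N j, ∀ x ∈ H, g * x * g⁻¹ ∈ H) ∧ Φ (Nat.card H)}).exists_le_maximal
          ⟨hMj, hMn, hMc⟩
      obtain ⟨hH1, hH2, hH3⟩ := hH.prop
      have hmax : ∀ H' : Subgroup G, H' ≤ N j → (∀ g ∈ N j, ∀ x ∈ H', g * x * g⁻¹ ∈ H') →
          Φ (Nat.card H') → H' ≤ H := by
        intro H' h1 h2 h3
        have hnorm : ∀ (A : Subgroup G), (∀ g ∈ N j, ∀ x ∈ A, g * x * g⁻¹ ∈ A) → A ≤ N j →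
            (A.subgroupOf (N j)).Normal := by
          intro A hA _
          refine ⟨fun x hx g => ?_⟩
          rw [Subgroup.mem_subgroupOf] at hx ⊢
          exact hA g g.2 x hx
        have n1 := hnorm H hH2 hH1
        have n2 := hnorm H' h2 h1
        have hsup : (H ⊔ H') ∈ {H : Subgroup G | H ≤ N j ∧
            (∀ g ∈ N j, ∀ x ∈ H, g * x * g⁻¹ ∈ H) ∧ Φ (Nat.card H)} := by
          refine ⟨sup_le hH1 h1, ?_, ?_⟩
          · have h4 : ((H ⊔ H').subgroupOf (N j)).Normal := by
              rw [Subgroup.subgroupOf_sup hH1 h1]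
              exact Subgroup.sup_normal _ _
            intro g hg x hx
            have h5 := h4.conj_mem ⟨x, sup_le hH1 h1 hx⟩ (Subgroup.mem_subgroupOf.2 hx) ⟨g, hg⟩
            exact Subgroup.mem_subgroupOf.1 h5
          · refine hdvd _ _ ?_ (hmul _ _ hH3 h3)
            have h4 : H.relIndex (H ⊔ H') = H.relIndex H' := by
              have h5 : (H.subgroupOf (N j)).relIndex
                  (H.subgroupOf (N j) ⊔ H'.subgroupOf (N j)) =
                  (H.subgroupOf (N j)).relIndex (H'.subgroupOf (N j)) := by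
                rw [sup_comm]
                exact Subgroup.relIndex_sup_right _ _
              rw [← Subgroup.subgroupOf_sup hH1 h1, Subgroup.relIndex_subgroupOf (sup_le hH1 h1),
                Subgroup.relIndex_subgroupOf h1] at h5
              exact h5
            have h6 := Subgroup.relIndex_mul_relIndex ⊥ H (H ⊔ H') bot_le le_sup_left
            rw [Subgroup.relIndex_bot_left, Subgroup.relIndex_bot_left, h4] at h6
            rw [← h6]
            exact mul_dvd_mul_left _ (Subgroup.relIndex_dvd_card H H')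
        exact le_sup_right.trans (hH.le_of_ge hsup le_sup_left)
      refine ⟨H, hM0.trans hMH, hH1.trans hle, fun g hg x hx => ?_, hH3⟩
      have h1 : H.map (MulAut.conj g).toMonoidHom ≤ H := by
        have hcj : ∀ y ∈ N j, g * y * g⁻¹ ∈ N j := by
          intro y hy
          have h5 := hnor.conj_mem ⟨y, hle hy⟩ (Subgroup.mem_subgroupOf.2 hy) ⟨g, hg⟩
          exact Subgroup.mem_subgroupOf.1 h5
        have hcj' : ∀ y ∈ N j, g⁻¹ * y * g ∈ N j := by
          intro y hy
          have h5 := hnor.conj_mem ⟨y, hle hy⟩ (Subgroup.mem_subgroupOf.2 hy)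
            ⟨g⁻¹, (N (j + 1)).inv_mem hg⟩
          have h6 := Subgroup.mem_subgroupOf.1 h5
          simpa using h6
        apply hmax
        · rintro _ ⟨y, hy, rfl⟩
          exact hcj y (hH1 hy)
        · rintro k hk _ ⟨y, hy, rfl⟩
          refine ⟨(g⁻¹ * k * g) * y * (g⁻¹ * k * g)⁻¹, hH2 _ (hcj' k hk) y hy, ?_⟩
          change g * ((g⁻¹ * k * g) * y * (g⁻¹ * k * g)⁻¹) * g⁻¹ = k * (g * y * g⁻¹) * k⁻¹
          group
        · have h6 : Nat.card (H.map (MulAut.conj g).toMonoidHom) = Nat.card H :=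
            Nat.card_congr (H.equivMapOfInjective _ (MulAut.conj g).injective).toEquiv.symm
          rw [h6]
          exact hH3
      exact h1 ⟨x, hx, rfl⟩
  obtain ⟨M, h1, _, h3, h4⟩ := hmain m le_rfl
  refine ⟨M, ⟨fun x hx g => h3 g ?_ x hx⟩, h1, h4⟩
  rw [hm]
  exact Subgroup.mem_top g

/-- A step of a subnormal series with factor a `p`-group or a `p'`-group. -/
def SubStep (p : ℕ) (A B : Subgroup G) : Prop :=
  A ≤ B ∧ (A.subgroupOf B).Normal ∧ (PFactor p A B ∨ PPrimeFactor p A B)

theorem subStep_map {p : ℕ} (hp : p.Prime) {G' : Type} [Group G'] (f : G →* G')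
    {A B : Subgroup G} (h : SubStep p A B) : SubStep p (A.map f) (B.map f) := by
  obtain ⟨hle, hn, hfac⟩ := h
  have heq : (A.subgroupOf B).map (f.subgroupMap B) = (A.map f).subgroupOf (B.map f) := by
    ext ⟨y, hy⟩
    rw [Subgroup.mem_subgroupOf]
    constructor
    · rintro ⟨⟨x, hxB⟩, hxA, hxy⟩
      have h1 : f x = y := congrArg Subtype.val hxy
      exact ⟨x, Subgroup.mem_subgroupOf.1 hxA, h1⟩
    · rintro ⟨x, hxA, hxy⟩
      exact ⟨⟨x, hle hxA⟩, Subgroup.mem_subgroupOf.2 hxA, Subtype.ext hxy⟩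
  have hsurj : Function.Surjective (f.subgroupMap B) := f.subgroupMap_surjective B
  have hd : (A.map f).relIndex (B.map f) ∣ A.relIndex B := by
    rw [Subgroup.relIndex, ← heq]
    exact Subgroup.index_map_dvd _ hsurj
  refine ⟨Subgroup.map_mono hle, ?_, ?_⟩
  · rw [← heq]
    exact hn.map _ hsurj
  · rcases hfac with h | h
    · left
      exact PL_pow_of_dvd hp hd h
    · right
      exact Nat.Coprime.coprime_dvd_left hd h

theorem exists_PL {p : ℕ} (hp : p.Prime) (c : ℕ) :
    ∀ (G : Type) [Group G] [Finite G], Nat.card G = c → ∀ (m : ℕ) (N : ℕ → Subgroup G),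
      N 0 = ⊥ → N m = ⊤ → (∀ i < m, SubStep p (N i) (N (i + 1))) →
      ∃ m', PL p m' (⊥ : Subgroup G) := by
  induction c using Nat.strong_induction_on with
  | _ c ih =>
    intro G _ _ hc m N h0 hm hstep
    by_cases htriv : (⊥ : Subgroup G) = ⊤
    · refine ⟨0, fun _ => ⊥, rfl, htriv, fun _ => inferInstance, fun _ => le_rfl, ?_, ?_⟩
      · intro i _
        rw [Subgroup.relIndex_self]
        exact Nat.coprime_one_left p
      · intro i hi
        exact absurd hi (Nat.not_lt_zero i)
    have hex : ∃ j, N j ≠ ⊥ := ⟨m, by rw [hm]; exact fun h => htriv h.symm⟩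
    classical
    obtain ⟨j, hj, hjmin⟩ : ∃ j, N j ≠ ⊥ ∧ ∀ i < j, N i = ⊥ :=
      ⟨Nat.find hex, Nat.find_spec hex, fun i hi => by
        by_contra h
        exact Nat.find_min hex hi h⟩
    have hjm : j ≤ m := by
      by_contra h
      have := hjmin m (by omega)
      rw [hm] at this
      exact htriv this.symm
    obtain ⟨l, rfl⟩ : ∃ l, j = l + 1 := by
      rcases j with _ | l
      · exact absurd h0 hj
      · exact ⟨l, rfl⟩
    have hl : N l = ⊥ := hjmin l (by omega)
    obtain ⟨_, _, hfac⟩ := hstep l (by omega)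
    rw [hl] at hfac
    simp only [PFactor, PPrimeFactor, Subgroup.relIndex_bot_left] at hfac
    have hchain : ∀ i < m - (l + 1), N (l + 1 + i) ≤ N (l + 1 + (i + 1)) ∧
        ((N (l + 1 + i)).subgroupOf (N (l + 1 + (i + 1)))).Normal := by
      intro i hi
      have h := hstep (l + 1 + i) (by omega)
      exact ⟨h.1, h.2.1⟩
    have htop : N (l + 1 + (m - (l + 1))) = ⊤ := by
      rw [show l + 1 + (m - (l + 1)) = m by omega, hm]
    have hind : ∀ M : Subgroup G, M.Normal → N (l + 1) ≤ M → ∃ m', PL p m' M := by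
      intro M hMn hM
      have hMbot : M ≠ ⊥ := by
        rintro rfl
        exact hj (le_bot_iff.1 hM)
      have hlt : Nat.card (G ⧸ M) < c := by
        have h2 := Subgroup.card_eq_card_quotient_mul_card_subgroup M
        rw [← hc, h2]
        have h3 : 1 < Nat.card M := by
          rw [← not_le, Subgroup.card_le_one_iff_eq_bot]
          exact hMbot
        exact lt_mul_of_one_lt_right Nat.card_pos h3
      obtain ⟨m', hm'⟩ := ih _ hlt (G ⧸ M) rfl m (fun i => (N i).map (QuotientGroup.mk' M))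
        (by rw [h0, Subgroup.map_bot])
        (by
          rw [hm]
          exact Subgroup.map_top_of_surjective _ (QuotientGroup.mk'_surjective M))
        (fun i hi => subStep_map hp _ (hstep i hi))
      refine ⟨m', ?_⟩
      have h2 := hm'.comap_quotient M
      rwa [MonoidHom.comap_bot, QuotientGroup.ker_mk'] at h2
    rcases hfac with hfac | hfac
    · obtain ⟨M, hMn, hM, hMc⟩ := exists_normal (fun a => ∃ k, a = p ^ k)
        (fun a b hab hb => PL_pow_of_dvd hp hab hb)
        (fun a b ⟨k, hk⟩ ⟨k', hk'⟩ => ⟨k + k', by rw [hk, hk', pow_add]⟩) (m - (l + 1))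
        (fun i => N (l + 1 + i)) htop hchain hfac
      obtain ⟨m', hm'⟩ := hind M hMn hM
      refine ⟨m' + 1, PL.of_pgroup inferInstance bot_le ?_ hm'⟩
      rw [Subgroup.relIndex_bot_left]
      exact hMc
    · obtain ⟨M, hMn, hM, hMc⟩ := exists_normal (fun a => a.Coprime p)
        (fun a b hab hb => Nat.Coprime.coprime_dvd_left hab hb)
        (fun a b ha hb => ha.mul_left hb) (m - (l + 1))
        (fun i => N (l + 1 + i)) htop hchain hfac
      obtain ⟨m', hm'⟩ := hind M hMn hM
      refine ⟨m', PL.of_coprime inferInstance bot_le ?_ hm'⟩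
      rw [Subgroup.relIndex_bot_left]
      exact hMc

/-! ### From the chain to the p-length -/

theorem exists_series_of_PL {p : ℕ} (hp : p.Prime) [Finite G] (n : ℕ) :
    ∀ A : Subgroup G, PL p n A → ∃ (m : ℕ) (N : ℕ → Subgroup G), N 0 = A ∧ N m = ⊤ ∧
      (∀ i ≤ m, (N i).Normal) ∧ (∀ i < m, N i ≤ N (i + 1) ∧
        (PFactor p (N i) (N (i + 1)) ∨ PPrimeFactor p (N i) (N (i + 1)))) ∧ pCount p m N ≤ n := by
  classical
  have hcons : ∀ (k : ℕ) (A B : Subgroup G), A.Normal → A ≤ B →
      (PFactor p A B ∨ PPrimeFactor p A B) →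
      (∃ (m : ℕ) (N : ℕ → Subgroup G), N 0 = B ∧ N m = ⊤ ∧
        (∀ i ≤ m, (N i).Normal) ∧ (∀ i < m, N i ≤ N (i + 1) ∧
        (PFactor p (N i) (N (i + 1)) ∨ PPrimeFactor p (N i) (N (i + 1)))) ∧ pCount p m N ≤ k) →
      (∃ (m : ℕ) (N : ℕ → Subgroup G), N 0 = A ∧ N m = ⊤ ∧
        (∀ i ≤ m, (N i).Normal) ∧ (∀ i < m, N i ≤ N (i + 1) ∧
        (PFactor p (N i) (N (i + 1)) ∨ PPrimeFactor p (N i) (N (i + 1)))) ∧
        pCount p m N ≤ k + (if PFactor p A B then 1 else 0)) := by
    rintro k A B hA hAB hfac ⟨m, N, h0, h1, h2, h3, h4⟩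
    refine ⟨m + 1, fun i => Nat.casesOn i A N, rfl, h1, ?_, ?_, ?_⟩
    · intro i hi
      rcases i with _ | i
      · exact hA
      · exact h2 i (by omega)
    · intro i hi
      rcases i with _ | i
      · change A ≤ N 0 ∧ (PFactor p A (N 0) ∨ PPrimeFactor p A (N 0))
        rw [h0]
        exact ⟨hAB, hfac⟩
      · exact h3 i (by omega)
    · unfold pCount at h4 ⊢
      rw [Finset.card_filter] at h4 ⊢
      rw [Finset.sum_range_succ']
      refine add_le_add h4 ?_
      change (if PFactor p A (N 0) then 1 else 0) ≤ _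
      rw [h0]
  have hcop : ∀ (k : ℕ) (A B : Subgroup G), A.Normal → A ≤ B → (A.relIndex B).Coprime p →
      (∃ (m : ℕ) (N : ℕ → Subgroup G), N 0 = B ∧ N m = ⊤ ∧
        (∀ i ≤ m, (N i).Normal) ∧ (∀ i < m, N i ≤ N (i + 1) ∧
        (PFactor p (N i) (N (i + 1)) ∨ PPrimeFactor p (N i) (N (i + 1)))) ∧ pCount p m N ≤ k) →
      (∃ (m : ℕ) (N : ℕ → Subgroup G), N 0 = A ∧ N m = ⊤ ∧
        (∀ i ≤ m, (N i).Normal) ∧ (∀ i < m, N i ≤ N (i + 1) ∧
        (PFactor p (N i) (N (i + 1)) ∨ PPrimeFactor p (N i) (N (i + 1)))) ∧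
        pCount p m N ≤ k) := by
    intro k A B hA hAB hc hN
    by_cases hAB' : A = B
    · rw [hAB']
      exact hN
    · have hnot : ¬ PFactor p A B := by
        rintro ⟨e, he⟩
        rw [he] at hc
        rcases Nat.eq_zero_or_pos e with rfl | hpos
        · rw [pow_zero, Subgroup.relIndex_eq_one] at he
          exact hAB' (le_antisymm hAB he)
        · have := Nat.Coprime.eq_one_of_dvd hc.symm (dvd_pow_self p hpos.ne')
          exact hp.one_lt.ne' this
      have h := hcons k A B hA hAB (Or.inr hc) hN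
      rwa [if_neg hnot, add_zero] at h
  induction n with
  | zero =>
    intro A hA
    obtain ⟨N, h0, h1, hN, hle, hT, hY⟩ := hA
    refine hcop 0 A ⊤ (h0 ▸ hN 0) le_top ?_ ⟨0, fun _ => ⊤, rfl, rfl,
      fun _ _ => inferInstance, fun i hi => absurd hi (Nat.not_lt_zero i), ?_⟩
    · have := hT 0 le_rfl
      rw [mul_zero, zero_add, h0] at this
      rw [mul_zero, zero_add] at h1
      rwa [h1] at this
    · simp [pCount]
  | succ n ih =>
    intro A hA
    obtain ⟨N1, N2, hN1, hN2, hA1, h12, hc, hk, hPL⟩ := hA.succ_cases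
    have h1 := hcons n N1 N2 hN1 h12 (Or.inl hk) (ih N2 hPL)
    rw [if_pos (show PFactor p N1 N2 from hk)] at h1
    exact hcop (n + 1) A N1 hA.normal hA1 hc h1

theorem card_step [Finite G] {A B : Subgroup G} (h : A ≤ B) :
    Nat.card B = A.relIndex B * Nat.card A := by
  have h1 := Subgroup.relIndex_mul_relIndex ⊥ A B bot_le h
  rw [Subgroup.relIndex_bot_left, Subgroup.relIndex_bot_left] at h1
  rw [← h1, mul_comm]

/-- **Theorem.** For every proper variety of groups (given by any set `L` of laws) and every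
prime `p` there is a bound `c` such that every finite `p`-soluble group whose Sylow
`p`-subgroups belong to the variety has `p`-length at most `c`. -/
theorem result : ∀ L : Set (FreeGroup ℕ), IsProper L → ∀ p : ℕ, p.Prime →
    ∃ c : ℕ, ∀ (G : Type) [Group G] [Finite G], IsPSoluble p G →
      (∀ P : Sylow p G, InVariety L P) → pLength p G ≤ (c : ℕ∞) := by
  intro L hL p hp
  obtain ⟨w, hwL, hw⟩ : ∃ w ∈ L, w ≠ 1 := by
    by_contra hno
    push Not at hno
    obtain ⟨H, _, hH⟩ := hL
    exact hH fun w hw f => by rw [hno w hw, map_one]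
  obtain ⟨c, hc⟩ := final_main p hp w hw
  refine ⟨c, ?_⟩
  intro G _ _ hsol hlaw
  -- the hypotheses of the chain form
  have h1 := hc G (fun P f hf => by
    have h2 := hlaw P w hwL (FreeGroup.lift fun j => (⟨f (FreeGroup.of j), hf j⟩ : P))
    have h3 : (P : Subgroup G).subtype.comp
        (FreeGroup.lift fun j => (⟨f (FreeGroup.of j), hf j⟩ : P)) = f := by
      apply FreeGroup.ext_hom
      intro j
      rw [MonoidHom.comp_apply, FreeGroup.lift_apply_of]
      rfl
    rw [← h3, MonoidHom.comp_apply, h2, map_one]) (by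
    obtain ⟨m, N, h0, hm, hN⟩ := exists_compositionSeries (Nat.card (⊤ : Subgroup G))
      (⊤ : Subgroup G) rfl
    obtain ⟨m', N', h0', h1', hn', hle', hT', hY'⟩ := exists_PL hp (Nat.card G) G rfl m N h0 hm
      (fun i hi => ⟨(hN i hi).1, (hN i hi).2.1, hsol m N ⟨h0, hm, hN⟩ i hi⟩)
    exact ⟨m', N', h0', h1', hn', hle', fun i hi => ⟨_, hT' i hi, card_step (hle' _)⟩,
      fun i hi => by
        obtain ⟨k, hk⟩ := hY' i hi
        refine ⟨k, ?_⟩
        rw [← hk]
        exact card_step (hle' _)⟩)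
  obtain ⟨N, h0, h1, h2, h3, h4, h5⟩ := h1
  have hPL : PL p c (⊥ : Subgroup G) := by
    refine ⟨N, h0, h1, h2, h3, fun i hi => ?_, fun i hi => ?_⟩
    · obtain ⟨d, hd, hd2⟩ := h4 i hi
      have h6 := card_step (h3 (2 * i))
      rw [hd2] at h6
      rw [← Nat.eq_of_mul_eq_mul_right Nat.card_pos h6]
      exact hd
    · obtain ⟨k, hk⟩ := h5 i hi
      refine ⟨k, ?_⟩
      have h6 := card_step (h3 (2 * i + 1))
      rw [show 2 * i + 1 + 1 = 2 * i + 2 from rfl, hk] at h6
      exact (Nat.eq_of_mul_eq_mul_right Nat.card_pos h6).symm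
  obtain ⟨m, N', h0', hm', hn', hs', hcount⟩ := exists_series_of_PL hp c ⊥ hPL
  refine le_trans (iInf₂_le m N') (le_trans (iInf_le _ ⟨h0', hm', hn', hs'⟩) ?_)
  exact_mod_cast hcount

end Pool.Agent.Results.MP_30fd2d_al.ProperVariety
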